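import Mathlib

/-!
# A pre-upho coloring whose monoid has two elements without greatest common left divisor
-/

namespace Pool.Agent.Results.MP_4cc90a_co.NoGcd

/-! ### The general notions -/

/-- the atoms of a lattice -/
abbrev Atoms (L : Type) [Lattice L] [BoundedOrder L] : Type := {s : L // IsAtom s}

section General

variable {L : Type} [Lattice L] [BoundedOrder L]

/-- `rk` is the rank function of the graded lattice `L` -/
def IsRank (rk : L → ℕ) : Prop := rk ⊥ = 0 ∧ ∀ x y : L, x ⋖ y → rk y = rk x + 1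

/-- `c` (only its values on covers `x ⋖ y` matter) is a pre-upho coloring of `L` -/
def IsPreUpho (rk : L → ℕ) (c : L → L → Atoms L) : Prop :=
  (∀ s : Atoms L, c ⊥ s = s) ∧
    ∀ x : L, x ≠ ⊥ → x ≠ ⊤ → ∀ z : L, IsLUB {y | x ⋖ y} z →
      ∃ φ : Set.Icc x z ↪o L,
        (∀ u : Set.Icc x z, rk (φ u) + rk x = rk (u : L)) ∧
        ∀ u v : Set.Icc x z, (u : L) ⋖ (v : L) → φ u ⋖ φ v ∧ c (φ u) (φ v) = c u v

/-- the color words of the saturated chains from `x` to `z` -/
inductive ChainWord (c : L → L → Atoms L) : L → L → List (Atoms L) → Prop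
  | nil (x : L) : ChainWord c x x []
  | cons {x y z : L} {w : List (Atoms L)} (h : x ⋖ y) (hw : ChainWord c y z w) :
      ChainWord c x z (c x y :: w)

/-- the defining relations: for two atoms `x`, `y`, any two saturated chains from `⊥` to
`x ⊔ y`, the first through `x` and the second through `y`, have equal color words -/
def Rel (c : L → L → Atoms L) (u v : FreeMonoid (Atoms L)) : Prop :=
  ∃ x y : Atoms L, ∃ p q : List (Atoms L),
    ChainWord c (x : L) (x ⊔ y) p ∧ ChainWord c (y : L) (x ⊔ y) q ∧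
      u = FreeMonoid.ofList (c ⊥ x :: p) ∧ v = FreeMonoid.ofList (c ⊥ y :: q)

/-- the monoid generated by the atoms of `L` with the relations `Rel c` -/
abbrev Mon (c : L → L → Atoms L) : Type := PresentedMonoid (Rel c)

/-- `d` is a greatest common left divisor of `u` and `v`; here `a ∣ b` is `∃ w, b = a * w` -/
def IsGCLD {M : Type} [Monoid M] (d u v : M) : Prop :=
  d ∣ u ∧ d ∣ v ∧ ∀ e : M, e ∣ u → e ∣ v → e ∣ d

end General

/-! ### The lattice with fourteen elements

`0 = ⊥`; atoms `1 = r, 2 = s, 3 = t, 4 = u`; rank two `5, …, 9`; rank three `10, 11, 12`;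
`13 = ⊤`. -/

/-- the carrier -/
def E : Type := Fin 14

instance : DecidableEq E := inferInstanceAs (DecidableEq (Fin 14))
instance : Fintype E := inferInstanceAs (Fintype (Fin 14))

/-- principal ideals as bit masks -/
def down : List ℕ := [1, 3, 5, 9, 17, 39, 75, 149, 261, 537, 1063, 2123, 5021, 16383]

/-- the order -/
def leT (x y : Fin 14) : Bool := (down.getD y.1 0).testBit x.1

/-- join table -/
def supL : List (List ℕ) :=
  [[0, 1, 2, 3, 4, 5, 6, 7, 8, 9, 10, 11, 12, 13],
   [1, 1, 5, 6, 13, 5, 6, 13, 13, 13, 10, 11, 13, 13],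
   [2, 5, 2, 12, 7, 5, 13, 7, 8, 12, 10, 13, 12, 13],
   [3, 6, 12, 3, 9, 13, 6, 12, 12, 9, 13, 11, 12, 13],
   [4, 13, 7, 9, 4, 13, 13, 7, 12, 9, 13, 13, 12, 13],
   [5, 5, 5, 13, 13, 5, 13, 13, 13, 13, 10, 13, 13, 13],
   [6, 6, 13, 6, 13, 13, 6, 13, 13, 13, 13, 11, 13, 13],
   [7, 13, 7, 12, 7, 13, 13, 7, 12, 12, 13, 13, 12, 13],
   [8, 13, 8, 12, 12, 13, 13, 12, 8, 12, 13, 13, 12, 13],
   [9, 13, 12, 9, 9, 13, 13, 12, 12, 9, 13, 13, 12, 13],
   [10, 10, 10, 13, 13, 10, 13, 13, 13, 13, 10, 13, 13, 13],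
   [11, 11, 13, 11, 13, 13, 11, 13, 13, 13, 13, 11, 13, 13],
   [12, 13, 12, 12, 12, 13, 13, 12, 12, 12, 13, 13, 12, 13],
   [13, 13, 13, 13, 13, 13, 13, 13, 13, 13, 13, 13, 13, 13]]

/-- meet table -/
def infL : List (List ℕ) :=
  [[0, 0, 0, 0, 0, 0, 0, 0, 0, 0, 0, 0, 0, 0],
   [0, 1, 0, 0, 0, 1, 1, 0, 0, 0, 1, 1, 0, 1],
   [0, 0, 2, 0, 0, 2, 0, 2, 2, 0, 2, 0, 2, 2],
   [0, 0, 0, 3, 0, 0, 3, 0, 0, 3, 0, 3, 3, 3],
   [0, 0, 0, 0, 4, 0, 0, 4, 0, 4, 0, 0, 4, 4],
   [0, 1, 2, 0, 0, 5, 1, 2, 2, 0, 5, 1, 2, 5],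
   [0, 1, 0, 3, 0, 1, 6, 0, 0, 3, 1, 6, 3, 6],
   [0, 0, 2, 0, 4, 2, 0, 7, 2, 4, 2, 0, 7, 7],
   [0, 0, 2, 0, 0, 2, 0, 2, 8, 0, 2, 0, 8, 8],
   [0, 0, 0, 3, 4, 0, 3, 4, 0, 9, 0, 3, 9, 9],
   [0, 1, 2, 0, 0, 5, 1, 2, 2, 0, 10, 1, 2, 10],
   [0, 1, 0, 3, 0, 1, 6, 0, 0, 3, 1, 11, 3, 11],
   [0, 0, 2, 3, 4, 2, 3, 7, 8, 9, 2, 3, 12, 12],
   [0, 1, 2, 3, 4, 5, 6, 7, 8, 9, 10, 11, 12, 13]]

/-- table lookup -/
def look (t : List (List ℕ)) (x y : Fin 14) : Fin 14 := Fin.ofNat 14 ((t.getD x.1 []).getD y.1 0)

instance : Lattice E where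
  le x y := leT x y = true
  le_refl := by
    show ∀ x : Fin 14, leT x x = true
    decide +kernel
  le_trans := by
    show ∀ x y z : Fin 14, leT x y = true → leT y z = true → leT x z = true
    decide +kernel
  le_antisymm := by
    show ∀ x y : Fin 14, leT x y = true → leT y x = true → x = y
    decide +kernel
  sup x y := look supL x y
  inf x y := look infL x y
  le_sup_left := by
    show ∀ x y : Fin 14, leT x (look supL x y) = true
    decide +kernel
  le_sup_right := by
    show ∀ x y : Fin 14, leT y (look supL x y) = true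
    decide +kernel
  sup_le := by
    show ∀ x y z : Fin 14, leT x z = true → leT y z = true → leT (look supL x y) z = true
    decide +kernel
  inf_le_left := by
    show ∀ x y : Fin 14, leT (look infL x y) x = true
    decide +kernel
  inf_le_right := by
    show ∀ x y : Fin 14, leT (look infL x y) y = true
    decide +kernel
  le_inf := by
    show ∀ x y z : Fin 14, leT x y = true → leT x z = true → leT x (look infL y z) = true
    decide +kernel

instance : BoundedOrder E where
  top := (13 : Fin 14)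
  bot := (0 : Fin 14)
  le_top := by
    show ∀ x : Fin 14, leT x 13 = true
    decide +kernel
  bot_le := by
    show ∀ x : Fin 14, leT 0 x = true
    decide +kernel

lemma le_iff (x y : E) : x ≤ y ↔ leT x y = true := Iff.rfl

lemma lt_iff (x y : E) : x < y ↔ leT x y = true ∧ ¬ leT y x = true := Iff.rfl

/-- the covers -/
def covL : List (ℕ × ℕ) :=
  [(0, 1), (0, 2), (0, 3), (0, 4), (1, 5), (1, 6), (2, 5), (2, 7), (2, 8), (3, 6), (3, 9), (4, 7),
    (4, 9), (5, 10), (6, 11), (7, 12), (8, 12), (9, 12), (10, 13), (11, 13), (12, 13)]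

/-- the cover relation -/
def covT (x y : Fin 14) : Bool := covL.contains (x.1, y.1)

lemma cov_iff (x y : E) : x ⋖ y ↔ covT x y = true := by
  have h : ∀ x y : Fin 14, ((leT x y = true ∧ ¬ leT y x = true) ∧
      ∀ c : Fin 14, (leT x c = true ∧ ¬ leT c x = true) → ¬ (leT c y = true ∧ ¬ leT y c = true)) ↔
      covT x y = true := by decide +kernel
  exact h x y

lemma atom_iff (x : E) : IsAtom x ↔ covT (0 : Fin 14) x = true := by
  rw [← bot_covBy_iff, cov_iff]
  exact Iff.rfl

/-- the rank function -/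
def rkT (x : Fin 14) : ℕ := [0, 1, 1, 1, 1, 2, 2, 2, 2, 2, 3, 3, 3, 4].getD x.1 0

lemma isRank : IsRank (L := E) rkT := by
  refine ⟨by decide +kernel, ?_⟩
  intro x y h
  rw [cov_iff] at h
  have h2 : ∀ x y : Fin 14, covT x y = true → rkT y = rkT x + 1 := by decide +kernel
  exact h2 x y h

/-- the colors that are not `4` -/
def colL : List ((ℕ × ℕ) × ℕ) :=
  [((0, 1), 1), ((0, 2), 2), ((0, 3), 3), ((1, 5), 2), ((2, 5), 2), ((2, 7), 3), ((3, 6), 2),
    ((4, 7), 3)]

/-- the coloring -/
def colT (x y : Fin 14) : Fin 14 := Fin.ofNat 14 ((colL.lookup (x.1, y.1)).getD 4)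

/-- the coloring, with values in the lattice -/
def colE (x y : E) : E := colT x y

lemma col_atom (x y : E) : IsAtom (colE x y) := by
  rw [atom_iff]
  have h : ∀ x y : Fin 14, covT (0 : Fin 14) (colT x y) = true := by decide +kernel
  exact h x y

/-- the coloring, with values in the atoms -/
def col (x y : E) : Atoms E := ⟨colE x y, col_atom x y⟩

lemma top_lub : IsLUB {s : E | IsAtom s} ⊤ := by
  refine ⟨fun _ _ => le_top, ?_⟩
  intro b hb
  have h1 : (1 : Fin 14) ∈ {s : E | IsAtom s} := (atom_iff _).2 (by decide +kernel)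
  have h2 : (4 : Fin 14) ∈ {s : E | IsAtom s} := (atom_iff _).2 (by decide +kernel)
  have e1 := hb h1
  have e2 := hb h2
  rw [le_iff] at e1 e2
  have h : ∀ b : Fin 14, leT 1 b = true → leT 4 b = true → leT 13 b = true := by decide +kernel
  exact h b e1 e2

/-- joins of the upper covers -/
def zT (x : Fin 14) : Fin 14 := Fin.ofNat 14 ([13, 13, 13, 13, 12, 10, 11, 12, 12, 12, 13, 13, 13,
  13].getD x.1 0)

/-- the embeddings -/
def phiL : List (List (ℕ × ℕ)) :=
  [[], [(1, 0), (5, 2), (6, 4), (10, 8), (11, 9), (13, 12)],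
    [(2, 0), (5, 2), (7, 3), (8, 4), (10, 8), (12, 9), (13, 12)],
    [(3, 0), (6, 2), (9, 4), (11, 8), (12, 9), (13, 12)],
    [(4, 0), (7, 3), (9, 4), (12, 9)],
    [(5, 0), (10, 4)], [(6, 0), (11, 4)], [(7, 0), (12, 4)], [(8, 0), (12, 4)], [(9, 0), (12, 4)],
    [(10, 0), (13, 4)], [(11, 0), (13, 4)], [(12, 0), (13, 4)], []]

/-- the embeddings -/
def phiT (x y : Fin 14) : Fin 14 := Fin.ofNat 14 (((phiL.getD x.1 []).lookup y.1).getD 0)

lemma z_lub (x z : E) (hx' : x ≠ ⊤) (hz : IsLUB {y | x ⋖ y} z) : z = (zT x : E) := by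
  refine hz.unique ⟨?_, ?_⟩
  · intro y hy
    have hy' : covT x y = true := (cov_iff x y).1 hy
    have h : ∀ x y : Fin 14, covT x y = true → leT y (zT x) = true := by decide +kernel
    exact h x y hy'
  · intro b hb
    have h : ∀ x : Fin 14, x ≠ 13 → ∀ b : Fin 14, (∀ y : Fin 14, covT x y = true → leT y b = true) →
        leT (zT x) b = true := by decide +kernel
    refine h x hx' b ?_
    intro y hy
    exact hb ((cov_iff x y).2 hy : (y : E) ∈ {y | x ⋖ y})

lemma preUpho : IsPreUpho (L := E) rkT col := by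
  refine ⟨?_, ?_⟩
  · rintro ⟨s, hs⟩
    apply Subtype.ext
    rw [atom_iff] at hs
    have h : ∀ s : Fin 14, covT 0 s = true → colT 0 s = s := by decide +kernel
    exact h s hs
  · intro x hx hx' z hz
    obtain rfl := z_lub x z hx' hz
    have hord : ∀ x : Fin 14, x ≠ 0 → x ≠ 13 → ∀ a : Fin 14, leT x a = true → leT a (zT x) = true →
        ∀ b : Fin 14, leT x b = true → leT b (zT x) = true →
        (leT (phiT x a) (phiT x b) = true ↔ leT a b = true) := by decide +kernel
    have hrk : ∀ x : Fin 14, x ≠ 0 → x ≠ 13 → ∀ a : Fin 14, leT x a = true → leT a (zT x) = true →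
        rkT (phiT x a) + rkT x = rkT a := by decide +kernel
    have hcol : ∀ x : Fin 14, x ≠ 0 → x ≠ 13 → ∀ a : Fin 14, leT x a = true →
        leT a (zT x) = true →
        ∀ b : Fin 14, leT x b = true → leT b (zT x) = true → covT a b = true →
        covT (phiT x a) (phiT x b) = true ∧ colT (phiT x a) (phiT x b) = colT a b := by
      decide +kernel
    refine ⟨OrderEmbedding.ofMapLEIff (fun u => (phiT x u.1 : E)) ?_, ?_, ?_⟩
    · intro a b
      exact hord x hx hx' a.1 a.2.1 a.2.2 b.1 b.2.1 b.2.2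
    · intro u
      exact hrk x hx hx' u.1 u.2.1 u.2.2
    · intro u v huv
      obtain ⟨h1, h2⟩ := hcol x hx hx' u.1 u.2.1 u.2.2 v.1 v.2.1 v.2.2 ((cov_iff _ _).1 huv)
      exact ⟨(cov_iff _ _).2 h1, Subtype.ext h2⟩

/-! ### The words of the chains -/

/-- all color words of chains with at most `n` steps -/
def cw : ℕ → Fin 14 → Fin 14 → List (List (Fin 14))
  | 0, x, z => if x = z then [[]] else []
  | n + 1, x, z => (if x = z then [[]] else []) ++
      ((List.finRange 14).filter (fun y => covT x y)).flatMap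
        (fun y => (cw n y z).map (fun w => colT x y :: w))

lemma cw_mem {x z : E} {w : List (Atoms E)} (h : ChainWord col x z w) :
    ∀ n, w.length ≤ n → w.map (fun a => (a.1 : Fin 14)) ∈ cw n x z := by
  induction h with
  | nil x =>
    intro n _
    cases n with
    | zero => simp [cw]
    | succ n => simp [cw]
  | @cons x y z w h hw ih =>
    intro n hn
    cases n with
    | zero => simp at hn
    | succ n =>
      simp only [List.length_cons, add_le_add_iff_right] at hn
      have h1 := ih n hn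
      rw [cov_iff] at h
      simp only [cw, List.mem_append, List.mem_flatMap, List.mem_filter, List.mem_map,
        List.map_cons]
      right
      exact ⟨y, ⟨List.mem_finRange _, h⟩, _, h1, rfl⟩

lemma chain_len {x z : E} {w : List (Atoms E)} (h : ChainWord col x z w) :
    w.length + rkT x = rkT z := by
  induction h with
  | nil x => simp
  | @cons x y z w h hw ih =>
    have := isRank.2 x y h
    simp only [List.length_cons]
    omega

lemma rk_le (z : E) : rkT z ≤ 4 := by
  have h : ∀ z : Fin 14, rkT z ≤ 4 := by decide +kernel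
  exact h z

/-! ### An invariant of the monoid -/

/-- the code of a word -/
def code (w : List (Fin 14)) : ℕ := w.foldl (fun n a => 14 * n + a.1) 0

/-- codes of the words of length at most three which are not least in their classes, with the
codes of the least words -/
def tab : List (ℕ × ℕ) :=
  [(30, 16), (44, 18), (59, 31), (60, 46), (226, 212), (240, 214), (255, 227), (256, 242),
    (408, 212), (421, 225), (422, 212), (423, 227), (424, 228), (436, 410), (451, 227), (452, 438),
    (604, 254), (617, 253), (618, 254), (619, 227), (620, 242), (632, 606), (634, 438), (647, 227),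
    (648, 438), (802, 410), (814, 800), (815, 227), (827, 435), (828, 410), (829, 437), (830, 438),
    (841, 645), (842, 646), (843, 227), (844, 438)]

/-- the invariant of words -/
def invN (w : List (Fin 14)) : ℕ :=
  if w.length ≤ 3 then (tab.lookup (code w)).getD (code w) else 0

/-- the underlying word in `Fin 14` -/
def und (w : FreeMonoid (Atoms E)) : List (Fin 14) :=
  (FreeMonoid.toList w).map (fun a => (a.1 : Fin 14))

lemma und_mul (v w : FreeMonoid (Atoms E)) : und (v * w) = und v ++ und w := by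
  simp [und]

/-- a checkable property of the two sides of a relation -/
def okB (u v : List (Fin 14)) : Bool :=
  (u == v) || (decide (2 ≤ u.length) && decide (v.length = u.length) && (invN u == invN v) &&
    ((List.finRange 14).filter (fun s => covT 0 s)).all (fun s =>
      (invN (s :: u) == invN (s :: v)) && (invN (u ++ [s]) == invN (v ++ [s]))))

lemma rel_ok {u v : FreeMonoid (Atoms E)} (h : Rel col u v) : okB (und u) (und v) = true := by
  obtain ⟨x, y, p, q, hp, hq, rfl, rfl⟩ := h
  have lp : p.length ≤ 4 := by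
    have := chain_len hp
    have := rk_le ((x : E) ⊔ y)
    omega
  have lq : q.length ≤ 4 := by
    have := chain_len hq
    have := rk_le ((x : E) ⊔ y)
    omega
  have mp := cw_mem hp 4 lp
  have mq := cw_mem hq 4 lq
  have hx := (atom_iff _).1 x.2
  have hy := (atom_iff _).1 y.2
  have key : ∀ x : Fin 14, covT 0 x = true → ∀ y : Fin 14, covT 0 y = true →
      ∀ p ∈ cw 4 x (look supL x y), ∀ q ∈ cw 4 y (look supL x y),
        okB (colT 0 x :: p) (colT 0 y :: q) = true := by decide +kernel
  have := key x.1 hx y.1 hy _ mp _ mq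
  exact this

lemma okB_spec {u v : List (Fin 14)} (h : okB u v = true) (a b : List (Fin 14))
    (ha : ∀ s ∈ a, covT 0 s = true) (hb : ∀ s ∈ b, covT 0 s = true) :
    invN (a ++ u ++ b) = invN (a ++ v ++ b) ∧ u.length = v.length := by
  simp only [okB, Bool.or_eq_true, beq_iff_eq, Bool.and_eq_true, decide_eq_true_eq, List.all_eq_true,
    List.mem_filter] at h
  rcases h with rfl | ⟨⟨⟨h2, hl⟩, h0⟩, h1⟩
  · exact ⟨rfl, rfl⟩
  · refine ⟨?_, hl.symm⟩
    by_cases hab : a.length + b.length ≤ 1
    · rcases a with _ | ⟨a0, a1⟩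
      · rcases b with _ | ⟨b0, b1⟩
        · simpa using h0
        · have : b1 = [] := by
            apply List.length_eq_zero_iff.1
            simp at hab
            simp [hab]
          subst this
          have := (h1 b0 ⟨List.mem_finRange _, hb b0 (by simp)⟩).2
          simpa using this
      · have h3 : a1 = [] := by
          apply List.length_eq_zero_iff.1
          simp at hab
          omega
        have h4 : b = [] := by
          apply List.length_eq_zero_iff.1
          simp at hab
          omega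
        subst h3 h4
        have := (h1 a0 ⟨List.mem_finRange _, ha a0 (by simp)⟩).1
        simpa using this
    · have e1 : ¬ (a ++ u ++ b).length ≤ 3 := by
        simp only [List.length_append]
        omega
      have e2 : ¬ (a ++ v ++ b).length ≤ 3 := by
        simp only [List.length_append]
        omega
      simp only [invN, if_neg e1, if_neg e2]

lemma und_atoms (w : FreeMonoid (Atoms E)) : ∀ s ∈ und w, covT 0 s = true := by
  intro s hs
  simp only [und, List.mem_map] at hs
  obtain ⟨a, _, rfl⟩ := hs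
  exact (atom_iff _).1 a.2

/-- the syntactic congruence of the invariant -/
def syn : Con (FreeMonoid (Atoms E)) where
  r u v := (∀ a b, invN (und (a * u * b)) = invN (und (a * v * b))) ∧
    (und u).length = (und v).length
  iseqv := ⟨fun _ => ⟨fun _ _ => rfl, rfl⟩, fun h => ⟨fun a b => (h.1 a b).symm, h.2.symm⟩,
    fun h k => ⟨fun a b => (h.1 a b).trans (k.1 a b), h.2.trans k.2⟩⟩
  mul' := by
    intro u v w x h k
    refine ⟨?_, ?_⟩
    · intro a b
      have e1 := h.1 a (w * b)
      have e2 := k.1 (a * v) b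
      simp only [mul_assoc] at e1 e2 ⊢
      rw [e1, e2]
    · simp only [und_mul, List.length_append, h.2, k.2]

lemma inv_eq {u v : FreeMonoid (Atoms E)}
    (h : PresentedMonoid.mk (Rel col) u = PresentedMonoid.mk (Rel col) v) :
    invN (und u) = invN (und v) ∧ (und u).length = (und v).length := by
  rw [PresentedMonoid.mk_eq_mk_iff] at h
  have hle : conGen (Rel col) ≤ syn := by
    rw [Con.conGen_le]
    intro u v huv
    have hok := rel_ok huv
    refine ⟨?_, (okB_spec hok [] [] (by simp) (by simp)).2⟩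
    intro a b
    simp only [und_mul]
    exact (okB_spec hok _ _ (und_atoms a) (und_atoms b)).1
  have h2 := hle h
  refine ⟨?_, h2.2⟩
  have := h2.1 1 1
  simpa using this

/-- the atoms -/
def mkA (s : Fin 14) (h : covT 0 s = true) : Atoms E := ⟨(s : Fin 14), (atom_iff _).2 h⟩

/-- `r` -/
def r : Atoms E := mkA 1 (by decide +kernel)
/-- `s` -/
def s : Atoms E := mkA 2 (by decide +kernel)
/-- `t` -/
def t : Atoms E := mkA 3 (by decide +kernel)
/-- `u` -/
def u : Atoms E := mkA 4 (by decide +kernel)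

/-- the element of the monoid given by a word -/
def el (w : List (Atoms E)) : Mon col := PresentedMonoid.mk (Rel col) (FreeMonoid.ofList w)

lemma el_append (v w : List (Atoms E)) : el (v ++ w) = el v * el w := by
  simp [el, FreeMonoid.ofList_append]

lemma el_mul (v w : List (Atoms E)) : el v * el w = el (v ++ w) := (el_append v w).symm

lemma el_rel {x y : Atoms E} {p q : List (Atoms E)} (hp : ChainWord col (x : E) (x ⊔ y) p)
    (hq : ChainWord col (y : E) (x ⊔ y) q) : el (col ⊥ x :: p) = el (col ⊥ y :: q) :=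
  PresentedMonoid.mk_eq_mk_of_rel ⟨x, y, p, q, hp, hq, rfl, rfl⟩

/-- a cover from the table -/
lemma cv (x y : Fin 14) (h : covT x y = true) : @CovBy E _ (x : E) (y : E) := (cov_iff _ _).2 h

/-- elements of `E` -/
def e (x : Fin 14) : E := x

lemma cov_e (x y : Fin 14) (h : covT x y = true) : e x ⋖ e y := (cov_iff _ _).2 h

lemma rel_rs : el [r, s] = el [s, s] := by
  have h : (r : E) ⊔ s = e 5 := rfl
  have hp : ChainWord col (r : E) (r ⊔ s) [col (e 1) (e 5)] := by
    rw [h]
    exact ChainWord.cons (cov_e 1 5 (by decide +kernel)) (ChainWord.nil _)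
  have hq : ChainWord col (s : E) (r ⊔ s) [col (e 2) (e 5)] := by
    rw [h]
    exact ChainWord.cons (cov_e 2 5 (by decide +kernel)) (ChainWord.nil _)
  exact el_rel hp hq

lemma rel_ru : el [r, u] = el [t, s] := by
  have h : (r : E) ⊔ t = e 6 := rfl
  have hp : ChainWord col (r : E) (r ⊔ t) [col (e 1) (e 6)] := by
    rw [h]
    exact ChainWord.cons (cov_e 1 6 (by decide +kernel)) (ChainWord.nil _)
  have hq : ChainWord col (t : E) (r ⊔ t) [col (e 3) (e 6)] := by
    rw [h]
    exact ChainWord.cons (cov_e 3 6 (by decide +kernel)) (ChainWord.nil _)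
  exact el_rel hp hq

lemma rel_st : el [s, t] = el [u, t] := by
  have h : (s : E) ⊔ u = e 7 := rfl
  have hp : ChainWord col (s : E) (s ⊔ u) [col (e 2) (e 7)] := by
    rw [h]
    exact ChainWord.cons (cov_e 2 7 (by decide +kernel)) (ChainWord.nil _)
  have hq : ChainWord col (u : E) (s ⊔ u) [col (e 4) (e 7)] := by
    rw [h]
    exact ChainWord.cons (cov_e 4 7 (by decide +kernel)) (ChainWord.nil _)
  exact el_rel hp hq

lemma rel_stu : el [s, t, u] = el [t, u, u] := by
  have h : (s : E) ⊔ t = e 12 := rfl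
  have hp : ChainWord col (s : E) (s ⊔ t) [col (e 2) (e 7), col (e 7) (e 12)] := by
    rw [h]
    exact ChainWord.cons (cov_e 2 7 (by decide +kernel))
      (ChainWord.cons (cov_e 7 12 (by decide +kernel)) (ChainWord.nil _))
  have hq : ChainWord col (t : E) (s ⊔ t) [col (e 3) (e 9), col (e 9) (e 12)] := by
    rw [h]
    exact ChainWord.cons (cov_e 3 9 (by decide +kernel))
      (ChainWord.cons (cov_e 9 12 (by decide +kernel)) (ChainWord.nil _))
  exact el_rel hp hq

lemma s_dvd_1 : el [s] ∣ el [r, s, t] := by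
  refine ⟨el [s, t], ?_⟩
  rw [el_mul, show [r, s, t] = [r, s] ++ [t] from rfl, el_append, rel_rs, el_mul]
  rfl

lemma t_dvd_1 : el [t] ∣ el [r, s, t] := by
  refine ⟨el [s, t], ?_⟩
  rw [el_mul, show [r, s, t] = [r] ++ [s, t] from rfl, el_append, rel_st, el_mul,
    show [r] ++ [u, t] = [r, u] ++ [t] from rfl, el_append, rel_ru, el_mul]
  rfl

lemma s_dvd_2 : el [s] ∣ el [s, t, u] := ⟨el [t, u], by rw [el_mul]; rfl⟩

lemma t_dvd_2 : el [t] ∣ el [s, t, u] := ⟨el [u, u], by rw [rel_stu, el_mul]; rfl⟩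

lemma len1 {l : List (Fin 14)} (h : l.length = 1) : ∃ a, l = [a] := List.length_eq_one_iff.1 h

lemma no_gcld : ¬ ∃ d : Mon col, IsGCLD d (el [r, s, t]) (el [s, t, u]) := by
  rintro ⟨d, hd1, hd2, hd⟩
  have hs := hd _ s_dvd_1 s_dvd_2
  have ht := hd _ t_dvd_1 t_dvd_2
  obtain ⟨w, rfl⟩ := PresentedMonoid.surjective_mk d
  obtain ⟨a, ha⟩ := hs
  obtain ⟨b, hb⟩ := ht
  obtain ⟨f, hf⟩ := hd1
  obtain ⟨g, hg⟩ := hd2
  obtain ⟨a, rfl⟩ := PresentedMonoid.surjective_mk a
  obtain ⟨b, rfl⟩ := PresentedMonoid.surjective_mk b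
  obtain ⟨f, rfl⟩ := PresentedMonoid.surjective_mk f
  obtain ⟨g, rfl⟩ := PresentedMonoid.surjective_mk g
  rw [el, ← map_mul] at ha hb hf hg
  obtain ⟨ia, la⟩ := inv_eq ha
  obtain ⟨ib, lb⟩ := inv_eq hb
  obtain ⟨jf, lf⟩ := inv_eq hf
  obtain ⟨jg, lg⟩ := inv_eq hg
  rw [und_mul] at ia la ib lb jf lf jg lg
  have us : und (FreeMonoid.ofList [s]) = [2] := rfl
  have ut : und (FreeMonoid.ofList [t]) = [3] := rfl
  have u1 : und (FreeMonoid.ofList [r, s, t]) = [1, 2, 3] := rfl
  have u2 : und (FreeMonoid.ofList [s, t, u]) = [2, 3, 4] := rfl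
  rw [us] at ia la
  rw [ut] at ib lb
  rw [u1] at jf lf
  rw [u2] at jg lg
  simp only [List.length_append, List.length_cons, List.length_nil] at la lb lf lg
  rcases Nat.lt_or_ge (und w).length 3 with h3 | h3
  · rcases Nat.lt_or_ge (und w).length 2 with h2 | h2
    · have e1 : und a = [] := List.length_eq_zero_iff.1 (by omega)
      have e2 : und b = [] := List.length_eq_zero_iff.1 (by omega)
      rw [e1] at ia
      rw [e2] at ib
      have h := ia.symm.trans ib
      revert h
      decide +kernel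
    · obtain ⟨x, hx⟩ := len1 (show (und a).length = 1 by omega)
      obtain ⟨y, hy⟩ := len1 (show (und b).length = 1 by omega)
      have h1 := und_atoms a x (by rw [hx]; simp)
      have h2 := und_atoms b y (by rw [hy]; simp)
      rw [hx] at ia
      rw [hy] at ib
      have h := ia.symm.trans ib
      have key : ∀ x : Fin 14, covT 0 x = true → ∀ y : Fin 14, covT 0 y = true →
          ¬ invN ([2] ++ [x]) = invN ([3] ++ [y]) := by decide +kernel
      exact key x h1 y h2 h
  · have e1 : und f = [] := List.length_eq_zero_iff.1 (by omega)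
    have e2 : und g = [] := List.length_eq_zero_iff.1 (by omega)
    rw [e1, List.append_nil] at jf
    rw [e2, List.append_nil] at jg
    have h := jf.trans jg.symm
    revert h
    decide +kernel

/-- **Answer to Q1 (no).** There are a finite graded lattice `L` whose top is the join of its
atoms and a pre-upho coloring of `L` such that, in the monoid `M` of the coloring, some two
elements have no greatest common left divisor. -/
theorem result :
    ∃ (L : Type) (_ : Lattice L) (_ : BoundedOrder L) (_ : Finite L) (rk : L → ℕ)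
      (c : L → L → Atoms L),
      IsRank rk ∧ IsLUB {s : L | IsAtom s} ⊤ ∧ IsPreUpho rk c ∧
        ∃ a b : Mon c, ¬ ∃ d : Mon c, IsGCLD d a b :=
  ⟨E, inferInstance, inferInstance, inferInstance, rkT, col, isRank, top_lub, preUpho,
    _, _, no_gcld⟩

end Pool.Agent.Results.MP_4cc90a_co.NoGcd
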